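import Mathlib

/-! A random permutation maps a dense set to a dense set in many points. -/

namespace Pool.Agent.V7H65.MPC

open Finset

variable {V : Type*} [Fintype V] [DecidableEq V]

/-- Permutations mapping `S` into `U`. -/
def into (S U : Finset V) : Finset (Equiv.Perm V) :=
  univ.filter (fun π => ∀ s ∈ S, π s ∈ U)

theorem into_step (S U : Finset V) (s : V) (hs : s ∉ S) :
    (Fintype.card V) * (into (insert s S) U).card ≤ U.card * (into S U).card := by
  -- swap the image of `s` with a point outside of `U`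
  have hinj : (into (insert s S) U ×ˢ Uᶜ).card ≤
      ((into S U \ into (insert s S) U) ×ˢ U).card := by
    apply card_le_card_of_injOn (fun p => (Equiv.swap (p.1 s) p.2 * p.1, p.1 s))
    · rintro ⟨π, w⟩ h
      simp only [coe_product, Set.mem_prod, mem_coe, into, mem_filter, mem_univ, true_and,
        mem_compl, mem_sdiff] at h ⊢
      obtain ⟨h1, h2⟩ := h
      refine ⟨⟨?_, ?_⟩, h1 s (mem_insert_self _ _)⟩
      · intro a ha
        rw [Equiv.Perm.mul_apply, Equiv.swap_apply_of_ne_of_ne]
        · exact h1 a (mem_insert_of_mem ha)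
        · intro h3
          exact hs (by rw [← π.injective h3]; exact ha)
        · intro h3
          exact h2 (by rw [← h3]; exact h1 a (mem_insert_of_mem ha))
      · intro h3
        have h4 := h3 s (mem_insert_self _ _)
        rw [Equiv.Perm.mul_apply, Equiv.swap_apply_left] at h4
        exact h2 h4
    · rintro ⟨π, w⟩ _ ⟨π', w'⟩ _ h
      simp only [Prod.mk.injEq] at h
      obtain ⟨h1, h2⟩ := h
      have h3 : w = w' := by
        have e1 : (Equiv.swap (π s) w * π) s = w := by
          rw [Equiv.Perm.mul_apply, Equiv.swap_apply_left]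
        have e2 : (Equiv.swap (π' s) w' * π') s = w' := by
          rw [Equiv.Perm.mul_apply, Equiv.swap_apply_left]
        rw [← e1, ← e2, h1]
      subst h3
      rw [h2] at h1
      have h4 := mul_left_cancel h1
      rw [h4]
  rw [card_product, card_product, card_compl] at hinj
  have hsub : into (insert s S) U ⊆ into S U := by
    intro π hπ
    simp only [into, mem_filter, mem_univ, true_and] at hπ ⊢
    exact fun a ha => hπ a (mem_insert_of_mem ha)
  rw [card_sdiff_of_subset hsub] at hinj
  have h1 := card_le_card hsub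
  have h2 := card_le_univ U
  zify [h1, h2] at hinj ⊢
  nlinarith

theorem into_bound (S U : Finset V) :
    ((into S U).card : ℝ) * (Fintype.card V : ℝ) ^ S.card ≤
      (Fintype.card V).factorial * (U.card : ℝ) ^ S.card := by
  induction S using Finset.induction_on with
  | empty =>
    simp only [card_empty, pow_zero, mul_one]
    have : (into (∅ : Finset V) U).card ≤ Fintype.card (Equiv.Perm V) := card_le_univ _
    rw [Fintype.card_perm] at this
    exact_mod_cast this
  | insert s S hs ih =>
    rw [card_insert_of_notMem hs, pow_succ, pow_succ]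
    have h1 : (Fintype.card V : ℝ) * (into (insert s S) U).card ≤ U.card * (into S U).card := by
      exact_mod_cast into_step S U s hs
    calc ((into (insert s S) U).card : ℝ) * ((Fintype.card V : ℝ) ^ S.card * Fintype.card V)
        = (Fintype.card V * (into (insert s S) U).card) * (Fintype.card V : ℝ) ^ S.card := by ring
      _ ≤ (U.card * (into S U).card) * (Fintype.card V : ℝ) ^ S.card := by
          apply mul_le_mul_of_nonneg_right h1 (by positivity)
      _ = U.card * ((into S U).card * (Fintype.card V : ℝ) ^ S.card) := by ring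
      _ ≤ U.card * ((Fintype.card V).factorial * (U.card : ℝ) ^ S.card) := by
          apply mul_le_mul_of_nonneg_left ih (by positivity)
      _ = _ := by ring

/-- The number of points of `S` mapped to `T`. -/
def hit (S T : Finset V) (π : Equiv.Perm V) : ℕ := (S.filter (fun s => π s ∈ T)).card

theorem mgf_bound (S T : Finset V) (hV : 0 < Fintype.card V) :
    ∑ π : Equiv.Perm V, (1 / 2 : ℝ) ^ hit S T π ≤
      (Fintype.card V).factorial * (1 - T.card / (2 * Fintype.card V)) ^ S.card := by
  set N := Fintype.card V with hN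
  have hNR : (0 : ℝ) < N := by exact_mod_cast hV
  have h1 : ∀ π : Equiv.Perm V, (1 / 2 : ℝ) ^ hit S T π =
      ∑ S' ∈ S.powerset, (∏ s ∈ S', (if π s ∈ T then (0 : ℝ) else 1 / 2)) *
        ∏ s ∈ S \ S', (1 / 2 : ℝ) := by
    intro π
    rw [← prod_add]
    have h2 : ∀ s ∈ S, ((if π s ∈ T then (0 : ℝ) else 1 / 2) + 1 / 2) =
        if π s ∈ T then 1 / 2 else 1 := by
      intro s _
      split_ifs <;> norm_num
    rw [prod_congr rfl h2, prod_ite, prod_const, prod_const_one, mul_one]
    rfl
  rw [sum_congr rfl (fun π _ => h1 π), sum_comm]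
  have h3 : ∀ S' ∈ S.powerset, ∑ π : Equiv.Perm V,
      (∏ s ∈ S', (if π s ∈ T then (0 : ℝ) else 1 / 2)) * ∏ s ∈ S \ S', (1 / 2 : ℝ) ≤
      N.factorial * (((Tᶜ.card : ℝ) / (2 * N)) ^ S'.card * (1 / 2) ^ (S.card - S'.card)) := by
    intro S' hS'
    rw [mem_powerset] at hS'
    rw [← sum_mul, prod_const, card_sdiff_of_subset hS']
    have h4 : ∀ π : Equiv.Perm V, ∏ s ∈ S', (if π s ∈ T then (0 : ℝ) else 1 / 2) =
        if π ∈ into S' Tᶜ then (1 / 2) ^ S'.card else 0 := by
      intro π
      by_cases hπ : π ∈ into S' Tᶜ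
      · rw [if_pos hπ]
        have h5 : ∀ s ∈ S', (if π s ∈ T then (0 : ℝ) else 1 / 2) = 1 / 2 := by
          intro s hs
          simp only [into, mem_filter, mem_univ, true_and, mem_compl] at hπ
          rw [if_neg (hπ s hs)]
        rw [prod_congr rfl h5, prod_const]
      · rw [if_neg hπ]
        simp only [into, mem_filter, mem_univ, true_and, mem_compl] at hπ
        push Not at hπ
        obtain ⟨s, hs, hs2⟩ := hπ
        exact prod_eq_zero hs (by rw [if_pos hs2])
    rw [sum_congr rfl (fun π _ => h4 π), ← sum_filter, sum_const, nsmul_eq_mul]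
    have h6 : (univ.filter (fun π => π ∈ into S' Tᶜ)) = into S' Tᶜ := by
      ext π; simp
    rw [h6]
    have h7 := into_bound S' Tᶜ
    rw [← hN] at h7
    have h8 : ((into S' Tᶜ).card : ℝ) ≤ N.factorial * ((Tᶜ.card : ℝ) / N) ^ S'.card := by
      rw [div_pow, ← mul_div_assoc, le_div_iff₀ (by positivity)]
      exact h7
    have h9 : ((Tᶜ.card : ℝ) / (2 * N)) ^ S'.card =
        ((Tᶜ.card : ℝ) / N) ^ S'.card * (1 / 2) ^ S'.card := by
      rw [← mul_pow]
      congr 1
      field_simp
    rw [h9]
    calc ((into S' Tᶜ).card : ℝ) * (1 / 2) ^ S'.card * (1 / 2) ^ (S.card - S'.card)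
        ≤ (N.factorial * ((Tᶜ.card : ℝ) / N) ^ S'.card) * (1 / 2) ^ S'.card *
          (1 / 2) ^ (S.card - S'.card) := by
          apply mul_le_mul_of_nonneg_right _ (by positivity)
          exact mul_le_mul_of_nonneg_right h8 (by positivity)
      _ = _ := by ring
  refine (sum_le_sum h3).trans (le_of_eq ?_)
  rw [← mul_sum, sum_pow_mul_eq_add_pow]
  congr 1
  congr 1
  rw [card_compl, ← hN, Nat.cast_sub (card_le_univ T)]
  field_simp
  ring

/-- Few permutations hit rarely. -/
theorem few_hits (S T : Finset V) (hV : 0 < Fintype.card V) (q : ℕ) :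
    (((univ : Finset (Equiv.Perm V)).filter (fun π => hit S T π < q)).card : ℝ) ≤
      2 ^ q * ((Fintype.card V).factorial * (1 - T.card / (2 * Fintype.card V)) ^ S.card) := by
  have h1 := mgf_bound S T hV
  have h2 : (((univ : Finset (Equiv.Perm V)).filter (fun π => hit S T π < q)).card : ℝ) *
      (1 / 2) ^ q ≤ ∑ π : Equiv.Perm V, (1 / 2 : ℝ) ^ hit S T π := by
    rw [← nsmul_eq_mul, ← sum_const]
    calc ∑ π ∈ (univ : Finset (Equiv.Perm V)).filter (fun π => hit S T π < q), (1 / 2 : ℝ) ^ q
        ≤ ∑ π ∈ (univ : Finset (Equiv.Perm V)).filter (fun π => hit S T π < q),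
          (1 / 2 : ℝ) ^ hit S T π := by
          apply sum_le_sum
          intro π hπ
          exact pow_le_pow_of_le_one (by norm_num) (by norm_num) (mem_filter.1 hπ).2.le
      _ ≤ _ := by
          apply sum_le_sum_of_subset_of_nonneg (subset_univ _)
          intro _ _ _
          positivity
  have h3 : (0 : ℝ) < 2 ^ q := by positivity
  calc (((univ : Finset (Equiv.Perm V)).filter (fun π => hit S T π < q)).card : ℝ)
      = 2 ^ q * ((((univ : Finset (Equiv.Perm V)).filter (fun π => hit S T π < q)).card : ℝ) *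
        (1 / 2) ^ q) := by
        rw [one_div, inv_pow]
        field_simp
    _ ≤ _ := mul_le_mul_of_nonneg_left (h2.trans h1) h3.le

/-- The form used below: sets of density at least `1/D`. -/
theorem few_hits' (S T : Finset V) (hV : 0 < Fintype.card V) (D : ℕ) (hD : 1 ≤ D)
    (hS : Fintype.card V ≤ D * S.card) (hT : Fintype.card V ≤ D * T.card) :
    (((univ : Finset (Equiv.Perm V)).filter
      (fun π => hit S T π < Fintype.card V / (8 * D ^ 2))).card : ℝ) ≤
      (Fintype.card V).factorial * Real.exp (-(Fintype.card V / (4 * D ^ 2))) := by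
  refine (few_hits S T hV _).trans ?_
  set N := Fintype.card V with hN
  have hNR : (0 : ℝ) < N := by exact_mod_cast hV
  have hDR : (1 : ℝ) ≤ D := by exact_mod_cast hD
  have hSR : (N : ℝ) ≤ D * S.card := by exact_mod_cast hS
  have hTR : (N : ℝ) ≤ D * T.card := by exact_mod_cast hT
  have h1 : (2 : ℝ) ^ (N / (8 * D ^ 2)) ≤ Real.exp (N / (8 * D ^ 2)) := by
    have h2 : (2 : ℝ) ≤ Real.exp 1 := by
      have := Real.add_one_le_exp (1 : ℝ)
      linarith
    calc (2 : ℝ) ^ (N / (8 * D ^ 2)) ≤ (Real.exp 1) ^ (N / (8 * D ^ 2)) :=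
          pow_le_pow_left₀ (by norm_num) h2 _
      _ = Real.exp ((N / (8 * D ^ 2) : ℕ) : ℝ) := by
          rw [← Real.exp_nat_mul, mul_one]
      _ ≤ Real.exp (N / (8 * D ^ 2)) := by
          apply Real.exp_le_exp.2
          have := Nat.cast_div_le (α := ℝ) (m := N) (n := 8 * D ^ 2)
          push_cast at this
          exact this
  have h3 : (1 - (T.card : ℝ) / (2 * N)) ^ S.card ≤ Real.exp (-(N / (2 * D ^ 2))) := by
    have h4 : (0 : ℝ) ≤ 1 - (T.card : ℝ) / (2 * N) := by
      rw [sub_nonneg, div_le_one (by positivity)]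
      have : (T.card : ℝ) ≤ N := by exact_mod_cast card_le_univ T
      linarith
    have h5 : 1 - (T.card : ℝ) / (2 * N) ≤ Real.exp (-((T.card : ℝ) / (2 * N))) := by
      have := Real.add_one_le_exp (-((T.card : ℝ) / (2 * N)))
      linarith
    calc (1 - (T.card : ℝ) / (2 * N)) ^ S.card
        ≤ (Real.exp (-((T.card : ℝ) / (2 * N)))) ^ S.card := pow_le_pow_left₀ h4 h5 _
      _ = Real.exp (-((T.card : ℝ) * S.card / (2 * N))) := by
          rw [← Real.exp_nat_mul]
          congr 1
          ring
      _ ≤ Real.exp (-(N / (2 * D ^ 2))) := by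
          apply Real.exp_le_exp.2
          apply neg_le_neg
          rw [div_le_div_iff₀ (by positivity) (by positivity)]
          have h6 : (N : ℝ) * N ≤ (D * S.card) * (D * T.card) :=
            mul_le_mul hSR hTR hNR.le (by positivity)
          nlinarith
  calc (2 : ℝ) ^ (N / (8 * D ^ 2)) * (N.factorial * (1 - (T.card : ℝ) / (2 * N)) ^ S.card)
      ≤ Real.exp (N / (8 * D ^ 2)) * (N.factorial * Real.exp (-(N / (2 * D ^ 2)))) := by
        apply mul_le_mul h1 _ _ (by positivity)
        · apply mul_le_mul_of_nonneg_left h3 (by positivity)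
        · apply mul_nonneg (by positivity)
          apply pow_nonneg
          rw [sub_nonneg, div_le_one (by positivity)]
          have : (T.card : ℝ) ≤ N := by exact_mod_cast card_le_univ T
          linarith
    _ = N.factorial * (Real.exp (N / (8 * D ^ 2)) * Real.exp (-(N / (2 * D ^ 2)))) := by ring
    _ = N.factorial * Real.exp (N / (8 * D ^ 2) + -(N / (2 * D ^ 2))) := by
        rw [← Real.exp_add]
    _ ≤ _ := by
        apply mul_le_mul_of_nonneg_left _ (by positivity)
        apply Real.exp_le_exp.2
        have h7 : (0 : ℝ) ≤ N / D ^ 2 := by positivity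
        have e1 : (N : ℝ) / (8 * D ^ 2) = (N / D ^ 2) / 8 := by field_simp
        have e2 : (N : ℝ) / (2 * D ^ 2) = (N / D ^ 2) / 2 := by field_simp
        have e3 : (N : ℝ) / (4 * D ^ 2) = (N / D ^ 2) / 4 := by field_simp
        rw [e1, e2, e3]
        linarith

end Pool.Agent.V7H65.MPC
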