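import Mathlib
import Pool.Agent.V7H65.RK.Hit
import Pool.Agent.V7H65.MP.Hyp

/-! Random permutations and dense sets of pairs. -/

namespace Pool.Agent.V7H65.MPC

open Finset Pool.Agent.H526R2.GI Pool.Agent.V7H65.RK

variable {n : ℕ}

open Classical in
/-- The neighbours of `v` in `X`. -/
noncomputable def nbr (X : Finset (Pr n)) (v : Fin n) : Finset (Fin n) :=
  univ.filter (fun u => InX X v u)

/-- Vertices of large degree. -/
noncomputable def heavy (X : Finset (Pr n)) (D : ℕ) : Finset (Fin n) :=
  univ.filter (fun v => n ≤ 2 * D * (nbr X v).card)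

/-- Edges of `X` mapped into `Y`. -/
noncomputable def DD (X Y : Finset (Pr n)) (π : Equiv.Perm (Fin n)) : Finset (Pr n) :=
  X.filter (fun e => act π e ∈ Y)

open Classical in
theorem heavy_card (X : Finset (Pr n)) (D : ℕ) (hX : n ^ 2 ≤ D * X.card) :
    n ≤ 2 * D * (heavy X D).card := by
  rcases Nat.eq_zero_or_pos n with hn | hn
  · omega
  have h1 : X.card ≤ ∑ v : Fin n, (nbr X v).card := by
    have h2 := ecard_InX X
    rw [ecard_eq] at h2
    exact h2
  have h3 : ∑ v : Fin n, (nbr X v).card =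
      ∑ v ∈ heavy X D, (nbr X v).card + ∑ v ∈ (heavy X D)ᶜ, (nbr X v).card :=
    (sum_add_sum_compl _ _).symm
  have h4 : ∑ v ∈ heavy X D, (nbr X v).card ≤ (heavy X D).card * n := by
    calc ∑ v ∈ heavy X D, (nbr X v).card ≤ ∑ v ∈ heavy X D, n := by
          apply sum_le_sum
          intro v _
          have := card_le_univ (nbr X v)
          rwa [Fintype.card_fin] at this
      _ = (heavy X D).card * n := by rw [sum_const, smul_eq_mul]
  have h5 : 2 * D * ∑ v ∈ (heavy X D)ᶜ, (nbr X v).card ≤ n * n := by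
    rw [mul_sum]
    calc ∑ v ∈ (heavy X D)ᶜ, 2 * D * (nbr X v).card ≤ ∑ v ∈ (heavy X D)ᶜ, n := by
          apply sum_le_sum
          intro v hv
          simp only [heavy, mem_compl, mem_filter, mem_univ, true_and] at hv
          omega
      _ = (heavy X D)ᶜ.card * n := by rw [sum_const, smul_eq_mul]
      _ ≤ n * n := by
          apply Nat.mul_le_mul_right
          have := card_le_univ (heavy X D)ᶜ
          rwa [Fintype.card_fin] at this
  have h6 : 2 * n ^ 2 ≤ 2 * D * ((heavy X D).card * n) + n * n := by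
    calc 2 * n ^ 2 ≤ 2 * (D * X.card) := by omega
      _ ≤ 2 * (D * ∑ v : Fin n, (nbr X v).card) := by gcongr
      _ = 2 * D * ∑ v ∈ heavy X D, (nbr X v).card +
          2 * D * ∑ v ∈ (heavy X D)ᶜ, (nbr X v).card := by
          rw [h3]; ring
      _ ≤ _ := by
          apply Nat.add_le_add _ h5
          exact Nat.mul_le_mul_left _ h4
  have h7 : n * n ≤ (2 * D * (heavy X D).card) * n := by nlinarith
  exact Nat.le_of_mul_le_mul_right h7 hn

open Classical in
theorem DD_card (X Y : Finset (Pr n)) (D q : ℕ) (π : Equiv.Perm (Fin n))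
    (h1 : q ≤ hit (heavy X D) (heavy Y D) π)
    (h2 : ∀ v ∈ heavy X D, ∀ w ∈ heavy Y D, q ≤ hit (nbr X v) (nbr Y w) π) :
    q * q ≤ 2 * (DD X Y π).card := by
  set A := (heavy X D).filter (fun v => π v ∈ heavy Y D) with hA
  -- ordered pairs
  let P : Finset (Fin n × Fin n) :=
    univ.filter (fun p => InX X p.1 p.2 ∧ InX Y (π p.1) (π p.2))
  have h3 : q * q ≤ P.card := by
    have h4 : ∀ v ∈ A, q ≤ (P.filter (fun p => p.1 = v)).card := by
      intro v hv
      rw [hA, mem_filter] at hv
      refine (h2 v hv.1 (π v) hv.2).trans ?_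
      unfold hit
      apply card_le_card_of_injOn (fun u => (v, u))
      · intro u hu
        simp only [coe_filter, nbr, mem_filter, mem_univ, true_and, Set.mem_ofPred_eq] at hu
        simp only [P, coe_filter, mem_filter, mem_univ, true_and, Set.mem_ofPred_eq]
        exact ⟨⟨hu.1, hu.2⟩, trivial⟩
      · intro u _ u' _ h
        exact (Prod.mk.inj h).2
    calc q * q ≤ A.card * q := Nat.mul_le_mul_right _ h1
      _ = ∑ v ∈ A, q := by rw [sum_const, smul_eq_mul]
      _ ≤ ∑ v ∈ A, (P.filter (fun p => p.1 = v)).card := sum_le_sum h4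
      _ ≤ ∑ v : Fin n, (P.filter (fun p => p.1 = v)).card := by
          apply sum_le_sum_of_subset_of_nonneg (subset_univ _)
          intro _ _ _
          exact Nat.zero_le _
      _ = P.card := (card_eq_sum_card_fiberwise (fun _ _ => mem_coe.2 (mem_univ _))).symm
  refine h3.trans ?_
  -- at most two ordered pairs per edge
  let F : Fin n × Fin n → Option (Pr n) := fun p =>
    if h : ¬ (s(p.1, p.2)).IsDiag then some ⟨s(p.1, p.2), h⟩ else none
  have hmaps : ∀ p ∈ P, F p ∈ (DD X Y π).image some := by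
    intro p hp
    simp only [P, mem_filter, mem_univ, true_and] at hp
    obtain ⟨⟨h5, h6⟩, ⟨h7, h8⟩⟩ := hp
    simp only [F]
    rw [dif_pos h5, mem_image]
    refine ⟨⟨s(p.1, p.2), h5⟩, ?_, rfl⟩
    rw [DD, mem_filter]
    refine ⟨h6, ?_⟩
    convert h8 using 1
    rfl
  have hfib : ∀ e ∈ (DD X Y π).image some, (P.filter (fun p => F p = e)).card ≤ 2 := by
    intro e he
    obtain ⟨e', _, rfl⟩ := mem_image.1 he
    obtain ⟨e', he'⟩ := e'
    induction e' using Sym2.ind with
    | _ a b =>
      have hsub : P.filter (fun p => F p = some ⟨s(a, b), he'⟩) ⊆ {(a, b), (b, a)} := by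
        rintro ⟨u, v⟩ hp
        rw [mem_filter] at hp
        have h5 := hp.2
        simp only [F] at h5
        split_ifs at h5 with h6
        rw [Option.some.injEq, Subtype.mk.injEq, Sym2.eq_iff] at h5
        rw [mem_insert, mem_singleton, Prod.mk.injEq, Prod.mk.injEq]
        exact h5
      exact (card_le_card hsub).trans card_le_two
  have := card_le_mul_card_image_of_maps_to hmaps 2 hfib
  refine this.trans ?_
  exact Nat.mul_le_mul_left _ card_image_le

open Classical in
/-- The permutations for which few edges of `X` are mapped into `Y`. -/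
noncomputable def badPerms (X Y : Finset (Pr n)) (q : ℕ) : Finset (Equiv.Perm (Fin n)) :=
  univ.filter (fun π => 2 * (DD X Y π).card < q * q)

open Classical in
theorem badPerms_card (hn : 0 < n) (X Y : Finset (Pr n)) (D : ℕ) (hD : 1 ≤ D)
    (hX : n ^ 2 ≤ D * X.card) (hY : n ^ 2 ≤ D * Y.card) :
    ((badPerms X Y (n / (8 * (2 * D) ^ 2))).card : ℝ) ≤
      (n ^ 2 + 1) * (n.factorial * Real.exp (-(n / (4 * (2 * D) ^ 2)))) := by
  set q := n / (8 * (2 * D) ^ 2) with hq
  let bad : Finset (Fin n) → Finset (Fin n) → Finset (Equiv.Perm (Fin n)) := fun S T =>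
    univ.filter (fun π => hit S T π < q)
  have hsub : badPerms X Y q ⊆ bad (heavy X D) (heavy Y D) ∪
      (heavy X D ×ˢ heavy Y D).biUnion (fun p => bad (nbr X p.1) (nbr Y p.2)) := by
    intro π hπ
    rw [badPerms, mem_filter] at hπ
    by_contra hcon
    rw [mem_union, mem_biUnion] at hcon
    push Not at hcon
    obtain ⟨h1, h2⟩ := hcon
    simp only [bad, mem_filter, mem_univ, true_and] at h1
    push Not at h1
    have h3 := DD_card X Y D q π h1 (by
      intro v hv w hw
      have h4 := h2 (v, w) (mem_product.2 ⟨hv, hw⟩)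
      simp only [bad, mem_filter, mem_univ, true_and] at h4
      push Not at h4
      exact h4)
    omega
  have hb : ∀ S T : Finset (Fin n), n ≤ 2 * D * S.card → n ≤ 2 * D * T.card →
      ((bad S T).card : ℝ) ≤ n.factorial * Real.exp (-(n / (4 * (2 * D) ^ 2))) := by
    intro S T hS hT
    have h1 := few_hits' S T (by rw [Fintype.card_fin]; exact hn) (2 * D) (by omega)
      (by rw [Fintype.card_fin]; exact hS) (by rw [Fintype.card_fin]; exact hT)
    rw [Fintype.card_fin] at h1
    push_cast at h1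
    exact h1
  have h1 : ((badPerms X Y q).card : ℝ) ≤ (bad (heavy X D) (heavy Y D)).card +
      ∑ p ∈ heavy X D ×ˢ heavy Y D, ((bad (nbr X p.1) (nbr Y p.2)).card : ℝ) := by
    have h2 := (card_le_card hsub).trans (card_union_le _ _)
    have h3 := h2.trans (Nat.add_le_add_left card_biUnion_le _)
    exact_mod_cast h3
  refine h1.trans ?_
  have h2 := hb _ _ (heavy_card X D hX) (heavy_card Y D hY)
  have h3 : ∑ p ∈ heavy X D ×ˢ heavy Y D, ((bad (nbr X p.1) (nbr Y p.2)).card : ℝ) ≤
      n ^ 2 * (n.factorial * Real.exp (-(n / (4 * (2 * D) ^ 2)))) := by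
    calc ∑ p ∈ heavy X D ×ˢ heavy Y D, ((bad (nbr X p.1) (nbr Y p.2)).card : ℝ)
        ≤ ∑ p ∈ heavy X D ×ˢ heavy Y D, n.factorial * Real.exp (-(n / (4 * (2 * D) ^ 2))) := by
          apply sum_le_sum
          intro p hp
          rw [mem_product] at hp
          apply hb
          · have := hp.1
            simp only [heavy, mem_filter, mem_univ, true_and] at this
            exact this
          · have := hp.2
            simp only [heavy, mem_filter, mem_univ, true_and] at this
            exact this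
      _ = (heavy X D ×ˢ heavy Y D).card *
          (n.factorial * Real.exp (-(n / (4 * (2 * D) ^ 2)))) := by
          rw [sum_const, nsmul_eq_mul]
      _ ≤ _ := by
          apply mul_le_mul_of_nonneg_right _ (by positivity)
          rw [card_product]
          have e1 := card_le_univ (heavy X D)
          have e2 := card_le_univ (heavy Y D)
          rw [Fintype.card_fin] at e1 e2
          have := Nat.mul_le_mul e1 e2
          rw [sq]
          exact_mod_cast this
  calc ((bad (heavy X D) (heavy Y D)).card : ℝ) +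
      ∑ p ∈ heavy X D ×ˢ heavy Y D, ((bad (nbr X p.1) (nbr Y p.2)).card : ℝ)
      ≤ n.factorial * Real.exp (-(n / (4 * (2 * D) ^ 2))) +
        n ^ 2 * (n.factorial * Real.exp (-(n / (4 * (2 * D) ^ 2)))) := add_le_add h2 h3
    _ = _ := by ring

/-- A permutation good for all pairs of sets at the same time. -/
theorem exists_good_perm {ι : Type} [Fintype ι] (hn : 0 < n) (X Y : ι → Finset (Pr n)) (D : ℕ)
    (hD : 1 ≤ D) (hX : ∀ i, n ^ 2 ≤ D * (X i).card) (hY : ∀ i, n ^ 2 ≤ D * (Y i).card)
    (hι : (Fintype.card ι : ℝ) * ((n ^ 2 + 1) * Real.exp (-(n / (4 * (2 * D) ^ 2)))) < 1) :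
    ∃ π : Equiv.Perm (Fin n), ∀ i, (n / (8 * (2 * D) ^ 2)) * (n / (8 * (2 * D) ^ 2)) ≤
      2 * (DD (X i) (Y i) π).card := by
  classical
  by_contra hcon
  push Not at hcon
  have h1 : (univ : Finset (Equiv.Perm (Fin n))) ⊆
      (univ : Finset ι).biUnion (fun i => badPerms (X i) (Y i) (n / (8 * (2 * D) ^ 2))) := by
    intro π _
    obtain ⟨i, hi⟩ := hcon π
    rw [mem_biUnion]
    refine ⟨i, mem_univ _, ?_⟩
    rw [badPerms, mem_filter]
    exact ⟨mem_univ _, hi⟩
  have h2 := (card_le_card h1).trans card_biUnion_le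
  rw [card_univ, Fintype.card_perm, Fintype.card_fin] at h2
  have h3 : (n.factorial : ℝ) ≤ ∑ i, ((badPerms (X i) (Y i) (n / (8 * (2 * D) ^ 2))).card : ℝ) := by
    exact_mod_cast h2
  have h4 : ∑ i, ((badPerms (X i) (Y i) (n / (8 * (2 * D) ^ 2))).card : ℝ) ≤
      Fintype.card ι * ((n ^ 2 + 1) * (n.factorial * Real.exp (-(n / (4 * (2 * D) ^ 2))))) := by
    calc ∑ i, ((badPerms (X i) (Y i) (n / (8 * (2 * D) ^ 2))).card : ℝ)
        ≤ ∑ i : ι, (n ^ 2 + 1) * (n.factorial * Real.exp (-(n / (4 * (2 * D) ^ 2)))) :=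
          sum_le_sum (fun i _ => badPerms_card hn (X i) (Y i) D hD (hX i) (hY i))
      _ = _ := by rw [sum_const, card_univ, nsmul_eq_mul]
  have h5 : (0 : ℝ) < n.factorial := by exact_mod_cast Nat.factorial_pos n
  have h6 : (n.factorial : ℝ) ≤ n.factorial *
      (Fintype.card ι * ((n ^ 2 + 1) * Real.exp (-(n / (4 * (2 * D) ^ 2))))) := by
    refine (h3.trans h4).trans (le_of_eq ?_)
    ring
  nlinarith

end Pool.Agent.V7H65.MPC
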