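import Mathlib
import Pool.Agent.V7H65.RK.Dec
import Pool.Agent.V7H65.MP.Pairs

/-! Covers of graph isomorphism by mixing sets. -/

namespace Pool.Agent.V7H65.MPC

open Finset Pool.Agent.H526R2.GI Pool.Agent.V7H65.RK

variable {n : ℕ}

/-- The graph `x` and its image under `π`. -/
def zz (π : Equiv.Perm (Fin n)) (x : Pr n → Bool) : Var n → Bool :=
  Sum.elim x (fun e => x ((act π).symm e))

theorem isIso_zz (π : Equiv.Perm (Fin n)) (x : Pr n → Bool) : IsIso (zz π x) := by
  rw [isIso_iff]
  refine ⟨π, fun e => ?_⟩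
  simp [zz]

open Classical in
theorem count_iso_le (y : Pr n → Bool) :
    ((univ : Finset (Pr n → Bool)).filter (fun x => IsIso (Sum.elim x y))).card ≤
      n.factorial := by
  have h : (univ : Finset (Pr n → Bool)).filter (fun x => IsIso (Sum.elim x y)) ⊆
      (univ : Finset (Equiv.Perm (Fin n))).image (fun ρ e => y (act ρ e)) := by
    intro x hx
    rw [mem_filter] at hx
    obtain ⟨ρ, hρ⟩ := (isIso_iff _).1 hx.2
    rw [mem_image]
    refine ⟨ρ, mem_univ _, ?_⟩
    funext e
    exact hρ e
  refine (card_le_card h).trans (card_image_le.trans ?_)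
  rw [card_univ, Fintype.card_perm, Fintype.card_fin]

/-- The bits of the first graph. -/
def lft (X : Finset (Pr n)) : Finset (Var n) := X.map ⟨Sum.inl, Sum.inl_injective⟩

/-- The bits of the second graph. -/
def rgt (Y : Finset (Pr n)) : Finset (Var n) := Y.map ⟨Sum.inr, Sum.inr_injective⟩

theorem inl_mem_lft (X : Finset (Pr n)) (e : Pr n) : Sum.inl e ∈ lft X ↔ e ∈ X := by
  simp [lft]

theorem inr_mem_rgt (Y : Finset (Pr n)) (e : Pr n) : Sum.inr e ∈ rgt Y ↔ e ∈ Y := by
  simp [rgt]

theorem inr_mem_lft (X : Finset (Pr n)) (e : Pr n) : Sum.inr e ∉ lft X := by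
  simp [lft]

theorem inl_mem_rgt (X : Finset (Pr n)) (e : Pr n) : Sum.inl e ∉ rgt X := by
  simp [rgt]

open Classical in
theorem slice_bound (R : (Var n → Bool) → Prop) (X Y : Finset (Pr n))
    (hR : NBP.MixV (lft X) (rgt Y) R) (hiso : ∀ z, R z → IsIso z) (π : Equiv.Perm (Fin n)) :
    ((univ : Finset (Pr n → Bool)).filter (fun x => R (zz π x))).card * 2 ^ (DD X Y π).card ≤
      2 ^ Fintype.card (Pr n) * n.factorial := by
  set D := DD X Y π with hD
  set S := (univ : Finset (Pr n → Bool)).filter (fun x => R (zz π x)) with hS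
  let F : (Pr n → Bool) → ({e : Pr n // e ∉ D} → Bool) := fun x e => x e.1
  have hfib : ∀ b ∈ (univ : Finset ({e : Pr n // e ∉ D} → Bool)),
      (S.filter (fun x => F x = b)).card ≤ n.factorial := by
    intro b _
    rcases (S.filter (fun x => F x = b)).eq_empty_or_nonempty with h | ⟨x0, hx0⟩
    · rw [h, card_empty]
      exact Nat.zero_le _
    · rw [mem_filter] at hx0
      refine le_trans (card_le_card ?_) (count_iso_le (fun e => x0 ((act π).symm e)))
      intro x hx
      rw [mem_filter] at hx ⊢
      refine ⟨mem_univ _, ?_⟩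
      have hag : ∀ e, e ∉ D → x e = x0 e := by
        intro e he
        have h1 : F x ⟨e, he⟩ = F x0 ⟨e, he⟩ := by rw [hx.2, hx0.2]
        exact h1
      have h2 := hR (zz π x) (zz π x0) (mem_filter.1 hx.1).2 (mem_filter.1 hx0.1).2 (by
        intro v hv hv'
        rcases v with e | e
        · apply hag
          intro he
          apply hv
          rw [inl_mem_lft]
          exact (mem_filter.1 he).1
        · simp only [zz, Sum.elim_inr]
          apply hag
          intro he
          apply hv'
          rw [inr_mem_rgt]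
          have := (mem_filter.1 he).2
          rwa [Equiv.apply_symm_apply] at this)
      have h3 := hiso _ h2
      convert h3 using 1
      funext v
      rcases v with e | e
      · by_cases he : e ∈ X
        · rw [if_pos ((inl_mem_lft X e).2 he)]
          rfl
        · rw [if_neg (fun h => he ((inl_mem_lft X e).1 h))]
          simp only [zz, Sum.elim_inl]
          exact hag e (fun h => he (mem_filter.1 h).1)
      · rw [if_neg (inr_mem_lft X e)]
        rfl
  have h1 := card_le_mul_card_image_of_maps_to (s := S) (t := univ) (f := F)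
    (fun _ _ => mem_univ _) n.factorial hfib
  rw [card_univ, Fintype.card_fun, Fintype.card_bool, Fintype.card_subtype_compl,
    Fintype.card_coe] at h1
  have hle : D.card ≤ Fintype.card (Pr n) := card_le_univ _
  calc S.card * 2 ^ D.card ≤ (n.factorial * 2 ^ (Fintype.card (Pr n) - D.card)) * 2 ^ D.card :=
        Nat.mul_le_mul_right _ h1
    _ = 2 ^ Fintype.card (Pr n) * n.factorial := by
        rw [mul_assoc, ← pow_add, Nat.sub_add_cancel hle, mul_comm]

/-- Covers of the isomorphic pairs by mixing sets are large. -/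
theorem cover_bound {ι T : Type} [Fintype ι] [Fintype T] (hn : 0 < n)
    (X Y : ι → Finset (Pr n)) (D : ℕ)
    (hD : 1 ≤ D) (hX : ∀ i, n ^ 2 ≤ D * (X i).card) (hY : ∀ i, n ^ 2 ≤ D * (Y i).card)
    (hι : (Fintype.card ι : ℝ) * ((n ^ 2 + 1) * Real.exp (-(n / (4 * (2 * D) ^ 2)))) < 1)
    (own : T → ι) (R : T → (Var n → Bool) → Prop)
    (hR : ∀ t, NBP.MixV (lft (X (own t))) (rgt (Y (own t))) (R t))
    (hiso : ∀ t z, R t z → IsIso z) (hcov : ∀ z, IsIso z → ∃ t, R t z) :
    2 ^ ((n / (8 * (2 * D) ^ 2)) * (n / (8 * (2 * D) ^ 2)) / 2) ≤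
      Fintype.card T * n.factorial := by
  classical
  obtain ⟨π, hπ⟩ := exists_good_perm hn X Y D hD hX hY hι
  set d := (n / (8 * (2 * D) ^ 2)) * (n / (8 * (2 * D) ^ 2)) / 2 with hd
  have h1 : ∀ t, ((univ : Finset (Pr n → Bool)).filter (fun x => R t (zz π x))).card * 2 ^ d ≤
      2 ^ Fintype.card (Pr n) * n.factorial := by
    intro t
    refine le_trans ?_ (slice_bound (R t) _ _ (hR t) (hiso t) π)
    apply Nat.mul_le_mul_left
    apply Nat.pow_le_pow_right (by norm_num)
    have := hπ (own t)
    omega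
  have h2 : (univ : Finset (Pr n → Bool)) ⊆ (univ : Finset T).biUnion
      (fun t => (univ : Finset (Pr n → Bool)).filter (fun x => R t (zz π x))) := by
    intro x _
    obtain ⟨t, ht⟩ := hcov _ (isIso_zz π x)
    rw [mem_biUnion]
    exact ⟨t, mem_univ _, mem_filter.2 ⟨mem_univ _, ht⟩⟩
  have h3 := (card_le_card h2).trans card_biUnion_le
  rw [card_univ, Fintype.card_fun, Fintype.card_bool] at h3
  have h4 : 2 ^ Fintype.card (Pr n) * 2 ^ d ≤
      2 ^ Fintype.card (Pr n) * (Fintype.card T * n.factorial) := by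
    calc 2 ^ Fintype.card (Pr n) * 2 ^ d
        ≤ (∑ t, ((univ : Finset (Pr n → Bool)).filter (fun x => R t (zz π x))).card) * 2 ^ d :=
          Nat.mul_le_mul_right _ h3
      _ = ∑ t, ((univ : Finset (Pr n → Bool)).filter (fun x => R t (zz π x))).card * 2 ^ d := by
          rw [sum_mul]
      _ ≤ ∑ t : T, 2 ^ Fintype.card (Pr n) * n.factorial := sum_le_sum (fun t _ => h1 t)
      _ = _ := by
          rw [sum_const, card_univ, smul_eq_mul]
          ring
  exact Nat.le_of_mul_le_mul_left h4 (by positivity)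

end Pool.Agent.V7H65.MPC
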