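import Mathlib
import Pool.Agent.V7H65.RK.Main
import Pool.Agent.V7H65.MP.Count

/-! Nondeterministic oblivious branching programs. -/

namespace Pool.Agent.V7H65.MPC

open Finset Pool.Agent.H526R2.GI Pool.Agent.V7H65.RK

section altern

variable {V : Type} [DecidableEq V]

/-- No element of `A` occurs in the list. -/
def Free (A : Finset V) (σ : List V) : Prop := ∀ x ∈ σ, x ∉ A

/-- The list is a concatenation of `r + 1` lists each of which avoids `A` or avoids `B`. -/
inductive Alt (A B : Finset V) : ℕ → List V → Prop
  | base (σ : List V) : (Free A σ ∨ Free B σ) → Alt A B 0 σ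
  | step (r : ℕ) (σ₁ σ₂ : List V) : (Free A σ₁ ∨ Free B σ₁) → Alt A B r σ₂ →
      Alt A B (r + 1) (σ₁ ++ σ₂)

omit [DecidableEq V] in
theorem Alt.succ {A B : Finset V} {r : ℕ} {σ : List V} (h : Alt A B r σ) : Alt A B (r + 1) σ := by
  have := Alt.step r [] σ (Or.inl (by intro x hx; simp at hx)) h
  simpa using this

omit [DecidableEq V] in
theorem Alt.of_free {A B : Finset V} {σ : List V} (h : Free A σ ∨ Free B σ) (r : ℕ) :
    Alt A B r σ := by
  induction r with
  | zero => exact Alt.base σ h
  | succ r ih => exact ih.succ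

omit [DecidableEq V] in
theorem Free.mono {A A' : Finset V} {σ : List V} (h : Free A σ) (hA : A' ⊆ A) : Free A' σ :=
  fun x hx hx' => h x hx (hA hx')

/-- The lemma of Alon and Maass. -/
theorem alon_maass (m : ℕ) : ∀ (a b : ℕ) (σ : List V) (A B : Finset V), a + b = m →
    Disjoint A B → (∀ x ∈ A, σ.count x ≤ a) → (∀ x ∈ B, σ.count x ≤ b) →
    ∃ A' ⊆ A, ∃ B' ⊆ B, A.card ≤ 2 ^ m * A'.card ∧ B.card ≤ 2 ^ m * B'.card ∧ Alt A' B' m σ := by
  induction m with
  | zero =>
    intro a b σ A B hab _ hA _
    refine ⟨A, subset_rfl, B, subset_rfl, by simp, by simp, Alt.base σ (Or.inl ?_)⟩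
    intro x hx hxA
    have h1 := hA x hxA
    have h2 := List.count_pos_iff.2 hx
    omega
  | succ m ih =>
    intro a b σ A B hab hAB hA hB
    -- trivial cases
    have htriv : (Free A σ ∨ Free B σ) → ∃ A' ⊆ A, ∃ B' ⊆ B, A.card ≤ 2 ^ (m + 1) * A'.card ∧
        B.card ≤ 2 ^ (m + 1) * B'.card ∧ Alt A' B' (m + 1) σ := by
      intro h
      refine ⟨A, subset_rfl, B, subset_rfl, ?_, ?_, Alt.of_free h _⟩
      · exact Nat.le_mul_of_pos_left _ (by positivity)
      · exact Nat.le_mul_of_pos_left _ (by positivity)
    rcases Nat.eq_zero_or_pos a with ha | ha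
    · apply htriv
      left
      intro x hx hxA
      have h1 := hA x hxA
      have h2 := List.count_pos_iff.2 hx
      omega
    rcases Nat.eq_zero_or_pos b with hb | hb
    · apply htriv
      right
      intro x hx hxB
      have h1 := hB x hxB
      have h2 := List.count_pos_iff.2 hx
      omega
    let α : ℕ → ℕ := fun j => (A.filter (fun x => x ∈ σ.take j)).card
    let β : ℕ → ℕ := fun j => (B.filter (fun x => x ∈ σ.take j)).card
    by_cases hp : ∃ j, A.card ≤ 2 * α j ∨ B.card ≤ 2 * β j
    swap
    · -- half of both sets does not occur at all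
      push Not at hp
      obtain ⟨h1, h2⟩ := hp σ.length
      simp only [α, β, List.take_length] at h1 h2
      refine ⟨A.filter (fun x => x ∉ σ), filter_subset _ _, B.filter (fun x => x ∉ σ),
        filter_subset _ _, ?_, ?_, ?_⟩
      · have h3 := card_filter_add_card_filter_not (s := A) (fun x => x ∈ σ)
        have h4 : 2 * (A.filter (fun x => x ∉ σ)).card ≤
            2 ^ (m + 1) * (A.filter (fun x => x ∉ σ)).card := by
          apply Nat.mul_le_mul_right
          exact Nat.le_self_pow (by omega) 2
        omega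
      · have h3 := card_filter_add_card_filter_not (s := B) (fun x => x ∈ σ)
        have h4 : 2 * (B.filter (fun x => x ∉ σ)).card ≤
            2 ^ (m + 1) * (B.filter (fun x => x ∉ σ)).card := by
          apply Nat.mul_le_mul_right
          exact Nat.le_self_pow (by omega) 2
        omega
      · apply Alt.of_free
        left
        intro x hx hx'
        exact (mem_filter.1 hx').2 hx
    obtain ⟨j, hj, hmin⟩ : ∃ j, (A.card ≤ 2 * α j ∨ B.card ≤ 2 * β j) ∧
        ∀ i < j, ¬ (A.card ≤ 2 * α i ∨ B.card ≤ 2 * β i) :=
      ⟨Nat.find hp, Nat.find_spec hp, fun i hi => Nat.find_min hp hi⟩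
    rcases Nat.eq_zero_or_pos j with hj0 | hj0
    · subst hj0
      simp only [α, β, List.take_zero, List.not_mem_nil, filter_false, card_empty, mul_zero,
        Nat.le_zero, card_eq_zero] at hj
      apply htriv
      rcases hj with h | h
      · left
        rw [h]
        intro x _ hx
        simp at hx
      · right
        rw [h]
        intro x _ hx
        simp at hx
    · have hprev := hmin (j - 1) (by omega)
      push Not at hprev
      obtain ⟨hpa, hpb⟩ := hprev
      have htake : ∃ τ : List V, τ.length ≤ 1 ∧ σ.take j = σ.take (j - 1) ++ τ := by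
        obtain ⟨i, rfl⟩ : ∃ i, j = i + 1 := ⟨j - 1, by omega⟩
        simp only [Nat.add_sub_cancel]
        rw [List.take_add_one]
        refine ⟨_, ?_, rfl⟩
        cases σ[i]? <;> simp
      obtain ⟨τ, hτ, htake⟩ := htake
      have hsplit : σ.take j ++ σ.drop j = σ := List.take_append_drop _ _
      have hcnt : ∀ x, σ.count x = (σ.take j).count x + (σ.drop j).count x := by
        intro x
        conv_lhs => rw [← hsplit]
        rw [List.count_append]
      -- the element at position `j - 1`
      have hgrow : ∀ (S : Finset V), (∀ x ∈ τ, x ∉ S) →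
          (S.filter (fun x => x ∈ σ.take j)).card = (S.filter (fun x => x ∈ σ.take (j - 1))).card := by
        intro S hS
        congr 1
        apply filter_congr
        intro x hx
        rw [htake, List.mem_append]
        constructor
        · rintro (h | h)
          · exact h
          · exact absurd hx (hS x h)
        · exact Or.inl
      have hdisj : (∀ x ∈ τ, x ∉ A) ∨ (∀ x ∈ τ, x ∉ B) := by
        rcases τ with _ | ⟨y, _ | ⟨y', τ⟩⟩
        · left; simp
        · by_cases hy : y ∈ A
          · right
            intro x hx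
            simp only [List.mem_singleton] at hx
            rw [hx]
            exact disjoint_left.1 hAB hy
          · left
            intro x hx
            simp only [List.mem_singleton] at hx
            rw [hx]
            exact hy
        · simp only [List.length_cons] at hτ
          omega
      by_cases hjA : A.card ≤ 2 * α j
      · -- half of `A` occurs in the first part
        have hB2 : ¬ B.card ≤ 2 * β j := by
          intro hjB
          rcases hdisj with h | h
          · have := hgrow A h
            simp only [α] at hjA hpa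
            omega
          · have := hgrow B h
            simp only [β] at hjB hpb
            omega
        have hB₁c : B.card ≤ 2 * (B.filter (fun x => x ∉ σ.take j)).card := by
          have h3 := card_filter_add_card_filter_not (s := B) (fun x => x ∈ σ.take j)
          simp only [β] at hB2
          omega
        set A₁ := A.filter (fun x => x ∈ σ.take j) with hA₁
        set B₁ := B.filter (fun x => x ∉ σ.take j) with hB₁
        have hA₁c : A.card ≤ 2 * A₁.card := hjA
        obtain ⟨A', hA', B', hB', h1, h2, h3⟩ := ih (a - 1) b (σ.drop j) A₁ B₁ (by omega)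
          (hAB.mono (filter_subset _ _) (filter_subset _ _)) (by
            intro x hx
            have h4 := hA x (mem_filter.1 hx).1
            have h5 := List.count_pos_iff.2 (mem_filter.1 hx).2
            rw [hcnt] at h4
            omega) (by
            intro x hx
            have h4 := hB x (mem_filter.1 hx).1
            rw [hcnt] at h4
            omega)
        refine ⟨A', hA'.trans (filter_subset _ _), B', hB'.trans (filter_subset _ _), ?_, ?_, ?_⟩
        · calc A.card ≤ 2 * A₁.card := hA₁c
            _ ≤ 2 * (2 ^ m * A'.card) := Nat.mul_le_mul_left _ h1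
            _ = _ := by ring
        · calc B.card ≤ 2 * B₁.card := hB₁c
            _ ≤ 2 * (2 ^ m * B'.card) := Nat.mul_le_mul_left _ h2
            _ = _ := by ring
        · rw [← hsplit]
          apply Alt.step m _ _ (Or.inr ?_) h3
          intro x hx hx'
          exact (mem_filter.1 (hB' hx')).2 hx
      · -- half of `B` occurs in the first part
        have hjB : B.card ≤ 2 * β j := by tauto
        have hA₁c : A.card ≤ 2 * (A.filter (fun x => x ∉ σ.take j)).card := by
          have h3 := card_filter_add_card_filter_not (s := A) (fun x => x ∈ σ.take j)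
          simp only [α] at hjA
          omega
        set A₁ := A.filter (fun x => x ∉ σ.take j) with hA₁
        set B₁ := B.filter (fun x => x ∈ σ.take j) with hB₁
        have hB₁c : B.card ≤ 2 * B₁.card := hjB
        obtain ⟨A', hA', B', hB', h1, h2, h3⟩ := ih a (b - 1) (σ.drop j) A₁ B₁ (by omega)
          (hAB.mono (filter_subset _ _) (filter_subset _ _)) (by
            intro x hx
            have h4 := hA x (mem_filter.1 hx).1
            rw [hcnt] at h4
            omega) (by
            intro x hx
            have h4 := hB x (mem_filter.1 hx).1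
            have h5 := List.count_pos_iff.2 (mem_filter.1 hx).2
            rw [hcnt] at h4
            omega)
        refine ⟨A', hA'.trans (filter_subset _ _), B', hB'.trans (filter_subset _ _), ?_, ?_, ?_⟩
        · calc A.card ≤ 2 * A₁.card := hA₁c
            _ ≤ 2 * (2 ^ m * A'.card) := Nat.mul_le_mul_left _ h1
            _ = _ := by ring
        · calc B.card ≤ 2 * B₁.card := hB₁c
            _ ≤ 2 * (2 ^ m * B'.card) := Nat.mul_le_mul_left _ h2
            _ = _ := by ring
        · rw [← hsplit]
          apply Alt.step m _ _ (Or.inl ?_) h3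
          intro x hx hx'
          exact (mem_filter.1 (hA' hx')).2 hx

/-- The elements occurring at most `m` times. -/
def rare (σ : List V) (A : Finset V) (m : ℕ) : Finset V := A.filter (fun x => σ.count x ≤ m)

theorem mem_rare {σ : List V} {A : Finset V} {m : ℕ} {x : V} :
    x ∈ rare σ A m ↔ x ∈ A ∧ σ.count x ≤ m := mem_filter

/-- Rare elements: at least half of a set. -/
theorem rare_card (σ : List V) (A : Finset V) (k : ℕ)
    (hσ : σ.length ≤ 2 * k * A.card) (hk : 1 ≤ k) :
    A.card ≤ 2 * (rare σ A (4 * k)).card := by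
  unfold rare
  have h1 : ∑ x ∈ A, σ.count x ≤ σ.length := by
    have h2 : ∑ x ∈ A, σ.count x = ∑ x ∈ A ∩ σ.toFinset, σ.count x := by
      symm
      apply sum_subset inter_subset_left
      intro x hx hx'
      rw [List.count_eq_zero]
      intro h
      exact hx' (mem_inter.2 ⟨hx, List.mem_toFinset.2 h⟩)
    rw [h2, ← List.sum_toFinset_count_eq_length σ]
    exact sum_le_sum_of_subset inter_subset_right
  have h3 := card_filter_add_card_filter_not (s := A) (fun x => σ.count x ≤ 4 * k)
  have h4 : (A.filter (fun x => ¬ σ.count x ≤ 4 * k)).card * (4 * k) ≤ ∑ x ∈ A, σ.count x := by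
    calc (A.filter (fun x => ¬ σ.count x ≤ 4 * k)).card * (4 * k)
        = ∑ x ∈ A.filter (fun x => ¬ σ.count x ≤ 4 * k), 4 * k := by rw [sum_const, smul_eq_mul]
      _ ≤ ∑ x ∈ A.filter (fun x => ¬ σ.count x ≤ 4 * k), σ.count x := by
          apply sum_le_sum
          intro x hx
          have := (mem_filter.1 hx).2
          omega
      _ ≤ _ := sum_le_sum_of_subset (filter_subset _ _)
  have h5 : (A.filter (fun x => ¬ σ.count x ≤ 4 * k)).card * (4 * k) ≤ 2 * k * A.card :=
    h4.trans (h1.trans hσ)
  have h6 : (2 * k) * (2 * (A.filter (fun x => ¬ σ.count x ≤ 4 * k)).card) ≤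
      (2 * k) * A.card := by
    calc (2 * k) * (2 * (A.filter (fun x => ¬ σ.count x ≤ 4 * k)).card) =
        (A.filter (fun x => ¬ σ.count x ≤ 4 * k)).card * (4 * k) := by ring
      _ ≤ _ := h5
  have h7 := Nat.le_of_mul_le_mul_left h6 (by omega)
  omega

end altern

/-- A nondeterministic oblivious branching program of width `w` over the variables `V`: in each
layer one variable is read, the same on all computations; a layer carries for each value of that
variable the relation of possible transitions between the `w` states. -/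
structure OBP (V : Type) (w : ℕ) where
  /-- the layers -/
  layers : List (V × (Bool → Fin w → Fin w → Prop))
  /-- the possible start states -/
  start : Fin w → Prop
  /-- the accepting states -/
  acc : Fin w → Prop

/-- The computations along a list of layers. -/
def Run {V : Type} {w : ℕ} : List (V × (Bool → Fin w → Fin w → Prop)) → (V → Bool) →
    Fin w → Fin w → Prop
  | [], _, p, q => p = q
  | (v, T) :: l, z, p, q => ∃ p', T (z v) p p' ∧ Run l z p' q

/-- The program accepts `z` if some computation leads from a start state to an accepting state. -/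
def OBP.Accepts {V : Type} {w : ℕ} (P : OBP V w) (z : V → Bool) : Prop :=
  ∃ p q, P.start p ∧ P.acc q ∧ Run P.layers z p q

section run

variable {V : Type} {w : ℕ}

theorem run_append (l₁ l₂ : List (V × (Bool → Fin w → Fin w → Prop))) (z : V → Bool)
    (p q : Fin w) : Run (l₁ ++ l₂) z p q ↔ ∃ p', Run l₁ z p p' ∧ Run l₂ z p' q := by
  induction l₁ generalizing p with
  | nil => simp [Run]
  | cons e l₁ ih =>
    obtain ⟨v, T⟩ := e
    simp only [List.cons_append, Run, ih]
    constructor
    · rintro ⟨p', h1, p'', h2, h3⟩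
      exact ⟨p'', ⟨p', h1, h2⟩, h3⟩
    · rintro ⟨p'', ⟨p', h1, h2⟩, h3⟩
      exact ⟨p', h1, p'', h2, h3⟩

theorem run_congr (l : List (V × (Bool → Fin w → Fin w → Prop))) (z z' : V → Bool)
    (h : ∀ v ∈ l.map Prod.fst, z' v = z v) (p q : Fin w) (hr : Run l z p q) : Run l z' p q := by
  induction l generalizing p with
  | nil => exact hr
  | cons e l ih =>
    obtain ⟨v, T⟩ := e
    obtain ⟨p', h1, h2⟩ := hr
    refine ⟨p', ?_, ih (fun v hv => h v (List.mem_cons_of_mem _ hv)) p' h2⟩
    rw [h v List.mem_cons_self]
    exact h1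

variable [DecidableEq V]

theorem mix_block {A B : Finset V} (l : List (V × (Bool → Fin w → Fin w → Prop)))
    (h : Free A (l.map Prod.fst) ∨ Free B (l.map Prod.fst)) (p q : Fin w) :
    NBP.MixV A B (fun z => Run l z p q) := by
  intro z z' hz hz' hag
  rcases h with h | h
  · apply run_congr l z' _ _ p q hz'
    intro v hv
    rw [if_neg (h v hv)]
  · apply run_congr l z _ _ p q hz
    intro v hv
    by_cases hvA : v ∈ A
    · rw [if_pos hvA]
    · rw [if_neg hvA]
      exact (hag v hvA (h v hv)).symm

theorem alt_decomp {A B : Finset V} {r : ℕ} {σ : List V} (h : Alt A B r σ) :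
    ∀ l : List (V × (Bool → Fin w → Fin w → Prop)), l.map Prod.fst = σ →
    ∃ R : (Fin r → Fin w) → Fin w → Fin w → (V → Bool) → Prop,
      (∀ z p q, Run l z p q ↔ ∃ c, R c p q z) ∧ ∀ c p q, NBP.MixV A B (R c p q) := by
  induction h with
  | base σ h =>
    intro l hl
    refine ⟨fun _ p q z => Run l z p q, ?_, ?_⟩
    · intro z p q
      constructor
      · intro h
        exact ⟨Fin.elim0, h⟩
      · rintro ⟨_, h⟩
        exact h
    · intro c p q
      exact mix_block l (by rw [hl]; exact h) p q
  | step r σ₁ σ₂ h _ ih =>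
    intro l hl
    obtain ⟨l₁, l₂, rfl, h1, h2⟩ := List.map_eq_append_iff.1 hl
    obtain ⟨R, hR1, hR2⟩ := ih l₂ h2
    refine ⟨fun c p q z => Run l₁ z p (c 0) ∧ R (Fin.tail c) (c 0) q z, ?_, ?_⟩
    · intro z p q
      rw [run_append]
      constructor
      · rintro ⟨p', h3, h4⟩
        obtain ⟨c, hc⟩ := (hR1 z p' q).1 h4
        refine ⟨Fin.cons p' c, ?_⟩
        simp only [Fin.cons_zero, Fin.tail_cons]
        exact ⟨h3, hc⟩
      · rintro ⟨c, h3, h4⟩
        exact ⟨c 0, h3, (hR1 z _ q).2 ⟨_, h4⟩⟩
    · intro c p q z z' hz hz' hag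
      refine ⟨?_, ?_⟩
      · exact mix_block l₁ (by rw [h1]; exact h) p (c 0) z z' hz.1 hz'.1 hag
      · exact hR2 _ _ _ z z' hz.2 hz'.2 hag

end run

variable {n : ℕ}

/-- The decomposition of a short oblivious program. -/
theorem obp_decomp {w : ℕ} (P : OBP (Var n) w) (k : ℕ) (hk : 1 ≤ k) (hn : 2 ≤ n)
    (hlen : P.layers.length ≤ k * (n * (n - 1))) :
    ∃ (X Y : Finset (Pr n)) (R : (Fin (8 * k) → Fin w) × Fin w × Fin w → (Var n → Bool) → Prop),
      n ^ 2 ≤ 2 ^ (8 * k + 3) * X.card ∧ n ^ 2 ≤ 2 ^ (8 * k + 3) * Y.card ∧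
      (∀ z, P.Accepts z ↔ ∃ c, R c z) ∧ ∀ c, NBP.MixV (lft X) (rgt Y) (R c) := by
  classical
  set σ := P.layers.map Prod.fst with hσ
  have hlen2 : σ.length ≤ k * (n * (n - 1)) := by
    rw [hσ, List.length_map]; exact hlen
  have hcard := card_Pr n
  set A₀ := rare σ (lft (univ : Finset (Pr n))) (4 * k) with hA₀
  set B₀ := rare σ (rgt (univ : Finset (Pr n))) (4 * k) with hB₀
  have hl : (lft (univ : Finset (Pr n))).card = Fintype.card (Pr n) := by
    rw [lft, card_map, card_univ]
  have hr : (rgt (univ : Finset (Pr n))).card = Fintype.card (Pr n) := by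
    rw [rgt, card_map, card_univ]
  have e : k * (n * (n - 1)) = 2 * k * Fintype.card (Pr n) := by
    rw [← hcard]; ring
  have hA₀c : Fintype.card (Pr n) ≤ 2 * A₀.card := by
    have := rare_card σ (lft (univ : Finset (Pr n))) k (by rw [hl, ← e]; exact hlen2) hk
    rw [hl] at this
    exact this
  have hB₀c : Fintype.card (Pr n) ≤ 2 * B₀.card := by
    have := rare_card σ (rgt (univ : Finset (Pr n))) k (by rw [hr, ← e]; exact hlen2) hk
    rw [hr] at this
    exact this
  have hdisj : Disjoint A₀ B₀ := by
    rw [disjoint_left]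
    intro v hv hv'
    rcases v with e | e
    · exact inl_mem_rgt _ e (mem_rare.1 hv').1
    · exact inr_mem_lft _ e (mem_rare.1 hv).1
  obtain ⟨A', hA', B', hB', h1, h2, h3⟩ := alon_maass (8 * k) (4 * k) (4 * k) σ A₀ B₀ (by omega)
    hdisj (fun x hx => (mem_rare.1 hx).2) (fun x hx => (mem_rare.1 hx).2)
  obtain ⟨R, hR1, hR2⟩ := alt_decomp (w := w) h3 P.layers hσ.symm
  -- translate to sets of pairs
  set X := univ.filter (fun e : Pr n => Sum.inl e ∈ A') with hX
  set Y := univ.filter (fun e : Pr n => Sum.inr e ∈ B') with hY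
  have hXA : lft X = A' := by
    ext v
    rcases v with e | e
    · rw [inl_mem_lft, hX, mem_filter]
      simp
    · constructor
      · intro h
        exact absurd h (inr_mem_lft _ _)
      · intro h
        exact absurd (mem_rare.1 (hA' h)).1 (inr_mem_lft _ _)
  have hYB : rgt Y = B' := by
    ext v
    rcases v with e | e
    · constructor
      · intro h
        exact absurd h (inl_mem_rgt _ _)
      · intro h
        exact absurd (mem_rare.1 (hB' h)).1 (inl_mem_rgt _ _)
    · rw [inr_mem_rgt, hY, mem_filter]
      simp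
  have hXc : X.card = A'.card := by rw [← hXA, lft, card_map]
  have hYc : Y.card = B'.card := by rw [← hYB, rgt, card_map]
  have h4 := sq_le_card (n := n) hn
  refine ⟨X, Y, fun c z => P.start c.2.1 ∧ P.acc c.2.2 ∧ R c.1 c.2.1 c.2.2 z, ?_, ?_, ?_, ?_⟩
  · rw [hXc]
    calc n ^ 2 ≤ 4 * Fintype.card (Pr n) := h4
      _ ≤ 4 * (2 * A₀.card) := Nat.mul_le_mul_left _ hA₀c
      _ ≤ 4 * (2 * (2 ^ (8 * k) * A'.card)) := by gcongr
      _ = _ := by rw [pow_add]; ring
  · rw [hYc]
    calc n ^ 2 ≤ 4 * Fintype.card (Pr n) := h4
      _ ≤ 4 * (2 * B₀.card) := Nat.mul_le_mul_left _ hB₀c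
      _ ≤ 4 * (2 * (2 ^ (8 * k) * B'.card)) := by gcongr
      _ = _ := by rw [pow_add]; ring
  · intro z
    constructor
    · rintro ⟨p, q, hp, hq, hr⟩
      obtain ⟨c, hc⟩ := (hR1 z p q).1 hr
      exact ⟨(c, p, q), hp, hq, hc⟩
    · rintro ⟨⟨c, p, q⟩, hp, hq, hc⟩
      exact ⟨p, q, hp, hq, (hR1 z p q).2 ⟨c, hc⟩⟩
  · rintro ⟨c, p, q⟩ z z' hz hz' hag
    refine ⟨hz.1, hz.2.1, ?_⟩
    rw [hXA]
    rw [hXA, hYB] at hag
    exact hR2 c p q z z' hz.2.2 hz'.2.2 hag

end Pool.Agent.V7H65.MPC
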