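import Mathlib
import Pool.Agent.V7H65.MP.Obl

/-! Oblivious programs for graph isomorphism: the bounds. -/

namespace Pool.Agent.V7H65.MPC

open Finset Pool.Agent.H526R2.GI Pool.Agent.V7H65.RK

/-- The base of the constants. -/
def CC : ℕ := 2 ^ 400

theorem CC_pow (k : ℕ) : CC ^ k = 2 ^ (400 * k) := by
  unfold CC
  rw [← pow_mul]

/-- Numerical facts for large `n`. -/
theorem big_facts (k n : ℕ) (hn : CC ^ k ≤ n ^ 2) :
    2 ^ (200 * k) ≤ n ∧ 2 ^ (100 * k) ≤ Nat.sqrt n := by
  rw [CC_pow] at hn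
  have h1 : 2 ^ (200 * k) ≤ n := by
    by_contra hcon
    push Not at hcon
    have h2 : n ^ 2 < (2 ^ (200 * k)) ^ 2 := Nat.pow_lt_pow_left hcon (by norm_num)
    rw [← pow_mul] at h2
    have e : 200 * k * 2 = 400 * k := by ring
    rw [e] at h2
    omega
  refine ⟨h1, ?_⟩
  rw [Nat.le_sqrt, ← pow_add]
  have e : 100 * k + 100 * k = 200 * k := by ring
  rw [e]
  exact h1

/-- The number of programs is small enough for the choice of a common permutation. -/
theorem few_programs (k n t : ℕ) (hk : 1 ≤ k) (hn : CC ^ k ≤ n ^ 2)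
    (ht : t ≤ 2 ^ (n / CC ^ k)) :
    (t : ℝ) * ((n ^ 2 + 1) *
      Real.exp (-(n / (4 * (2 * ((2 ^ (8 * k + 3) : ℕ) : ℝ)) ^ 2)))) < 1 := by
  obtain ⟨h1, h2⟩ := big_facts k n hn
  set r := Nat.sqrt n with hr
  have hr2 : r * r ≤ n := Nat.sqrt_le n
  have hnr : n ≤ 2 ^ (2 * r) := sqrt_facts n
  have hpow : ∀ a b : ℕ, a ≤ b → 2 ^ a ≤ 2 ^ b := fun a b h => Nat.pow_le_pow_right (by norm_num) h
  -- the exponent
  set b := n / CC ^ k with hb
  set W := 2 ^ (16 * k + 10) with hW
  have hn1 : 1 ≤ n := le_trans (Nat.one_le_two_pow) h1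
  have hmain : (b + 1 + 4 * r + 1) * W ≤ n := by
    have e1 : b * W ≤ n / 4 := by
      have h3 : b * CC ^ k ≤ n := Nat.div_mul_le_self _ _
      have h4 : 4 * W ≤ CC ^ k := by
        rw [CC_pow, hW, show (4 : ℕ) = 2 ^ 2 by norm_num, ← pow_add]
        exact hpow _ _ (by omega)
      rw [Nat.le_div_iff_mul_le (by norm_num)]
      calc b * W * 4 = b * (4 * W) := by ring
        _ ≤ b * CC ^ k := Nat.mul_le_mul_left _ h4
        _ ≤ n := h3
    have e2 : 2 * W ≤ n / 4 := by
      rw [Nat.le_div_iff_mul_le (by norm_num)]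
      refine le_trans ?_ h1
      rw [hW, show 2 * 2 ^ (16 * k + 10) * 4 = 2 ^ 3 * 2 ^ (16 * k + 10) by ring, ← pow_add]
      exact hpow _ _ (by omega)
    have e3 : 4 * r * W ≤ n / 4 := by
      rw [Nat.le_div_iff_mul_le (by norm_num)]
      have h5 : 16 * W ≤ r := by
        refine le_trans ?_ h2
        rw [hW, show (16 : ℕ) = 2 ^ 4 by norm_num, ← pow_add]
        exact hpow _ _ (by omega)
      calc 4 * r * W * 4 = (16 * W) * r := by ring
        _ ≤ r * r := Nat.mul_le_mul_right _ h5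
        _ ≤ n := hr2
    calc (b + 1 + 4 * r + 1) * W = b * W + 2 * W + 4 * r * W := by ring
      _ ≤ n / 4 + n / 4 + n / 4 := by omega
      _ ≤ n := by omega
  have h6 : (t : ℝ) * (n ^ 2 + 1) ≤ 2 ^ (b + 1 + 4 * r) := by
    have h7 : n ^ 2 + 1 ≤ 2 * (n * n) := by nlinarith
    have h8 : t * (n ^ 2 + 1) ≤ 2 ^ (b + 1 + 4 * r) := by
      calc t * (n ^ 2 + 1) ≤ 2 ^ b * (2 * (2 ^ (2 * r) * 2 ^ (2 * r))) := by
            apply Nat.mul_le_mul ht
            refine h7.trans ?_
            gcongr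
        _ = 2 ^ (b + 1 + 4 * r) := by
            rw [← pow_add, show 2 * 2 ^ (2 * r + 2 * r) = 2 ^ (1 + (2 * r + 2 * r)) by
              rw [pow_add 2 1, pow_one], ← pow_add]
            congr 1
            omega
    exact_mod_cast h8
  have h9 : (2 : ℝ) ^ (b + 1 + 4 * r) < Real.exp (n / (4 * (2 * ((2 ^ (8 * k + 3) : ℕ) : ℝ)) ^ 2)) := by
    have h10 : (2 : ℝ) ≤ Real.exp 1 := by
      have := Real.add_one_le_exp (1 : ℝ)
      linarith
    have h11 : (4 * (2 * ((2 ^ (8 * k + 3) : ℕ) : ℝ)) ^ 2) = W := by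
      rw [hW]
      push_cast
      ring
    rw [h11]
    calc (2 : ℝ) ^ (b + 1 + 4 * r) ≤ (Real.exp 1) ^ (b + 1 + 4 * r) :=
          pow_le_pow_left₀ (by norm_num) h10 _
      _ = Real.exp ((b + 1 + 4 * r : ℕ) : ℝ) := by rw [← Real.exp_nat_mul, mul_one]
      _ < Real.exp (n / W) := by
          apply Real.exp_lt_exp.2
          have hWpos : (0 : ℝ) < W := by rw [hW]; positivity
          rw [lt_div_iff₀ hWpos]
          have h12 : (((b + 1 + 4 * r + 1) * W : ℕ) : ℝ) ≤ n := by exact_mod_cast hmain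
          push_cast at h12 ⊢
          nlinarith
  rw [← mul_assoc, Real.exp_neg]
  have h13 := Real.exp_pos (n / (4 * (2 * ((2 ^ (8 * k + 3) : ℕ) : ℝ)) ^ 2))
  rw [mul_inv_lt_iff₀ h13, one_mul]
  exact lt_of_le_of_lt h6 h9

/-- The number of states. -/
theorem many_states (k n t w : ℕ) (hk : 1 ≤ k) (hn : CC ^ k ≤ n ^ 2)
    (ht : t ≤ 2 ^ (n / CC ^ k)) (hw : w ≤ 2 ^ (n ^ 2 / CC ^ k)) :
    t * w ^ (8 * k + 2) * n.factorial < 2 ^ ((n / (8 * (2 * 2 ^ (8 * k + 3)) ^ 2)) *
      (n / (8 * (2 * 2 ^ (8 * k + 3)) ^ 2)) / 2) := by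
  obtain ⟨h1, h2⟩ := big_facts k n hn
  set r := Nat.sqrt n with hr
  have hr2 : r * r ≤ n := Nat.sqrt_le n
  have hnr : n ≤ 2 ^ (2 * r) := sqrt_facts n
  have hpow : ∀ a b : ℕ, a ≤ b → 2 ^ a ≤ 2 ^ b := fun a b h => Nat.pow_le_pow_right (by norm_num) h
  set b := n / CC ^ k with hb
  set a := n ^ 2 / CC ^ k with ha
  set s := 8 * (2 * 2 ^ (8 * k + 3)) ^ 2 with hs
  have hs' : s = 2 ^ (16 * k + 11) := by
    rw [hs]
    have : 2 * 2 ^ (8 * k + 3) = 2 ^ (8 * k + 4) := by rw [pow_succ 2 (8 * k + 3)]; ring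
    rw [this, ← pow_mul, show (8 : ℕ) = 2 ^ 3 by norm_num, ← pow_add]
    congr 1
    omega
  have hspos : 0 < s := by rw [hs']; positivity
  set q := n / s with hq
  have hsn : s ≤ n := by
    refine le_trans ?_ h1
    rw [hs']
    exact hpow _ _ (by omega)
  have hnq : n ≤ 2 * q * s := by
    have h3 := Nat.div_add_mod n s
    have h4 := Nat.mod_lt n hspos
    have h5 : 1 ≤ q := by
      rw [hq, Nat.one_le_div_iff hspos]
      exact hsn
    rw [← hq] at h3
    nlinarith
  have hfac : n.factorial ≤ 2 ^ (2 * r * n) := by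
    calc n.factorial ≤ n ^ n := Nat.factorial_le_pow n
      _ ≤ (2 ^ (2 * r)) ^ n := Nat.pow_le_pow_left hnr n
      _ = 2 ^ (2 * r * n) := by rw [← pow_mul]
  have hlhs : t * w ^ (8 * k + 2) * n.factorial ≤ 2 ^ (b + a * (8 * k + 2) + 2 * r * n) := by
    calc t * w ^ (8 * k + 2) * n.factorial ≤ 2 ^ b * (2 ^ a) ^ (8 * k + 2) * 2 ^ (2 * r * n) := by
          gcongr
      _ = _ := by rw [← pow_mul, ← pow_add, ← pow_add]
  refine lt_of_le_of_lt hlhs ?_
  apply Nat.pow_lt_pow_right (by norm_num)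
  -- compare exponents
  have hkey : 2 * (b + a * (8 * k + 2) + 2 * r * n + 1) + 1 ≤ q * q := by
    have h3 : 4 * (s * s) * (2 * (b + a * (8 * k + 2) + 2 * r * n + 1) + 1) ≤
        4 * (s * s) * (q * q) := by
      have h4 : n * n ≤ (2 * q * s) * (2 * q * s) := Nat.mul_le_mul hnq hnq
      have h5 : (2 * q * s) * (2 * q * s) = 4 * (s * s) * (q * q) := by ring
      rw [h5] at h4
      refine le_trans ?_ h4
      have hss : s * s = 2 ^ (32 * k + 22) := by
        rw [hs', ← pow_add]; congr 1; ring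
      have e1 : 5 * (8 * (s * s) * b) ≤ n * n := by
        have h6 : b ≤ n := Nat.div_le_self _ _
        have h7 : 5 * (8 * (s * s)) ≤ n := by
          refine le_trans ?_ h1
          rw [hss]
          calc 5 * (8 * 2 ^ (32 * k + 22)) ≤ 2 ^ 6 * 2 ^ (32 * k + 22) := by
                have : 0 < 2 ^ (32 * k + 22) := by positivity
                omega
            _ = 2 ^ (6 + (32 * k + 22)) := by rw [← pow_add]
            _ ≤ _ := hpow _ _ (by omega)
        calc 5 * (8 * (s * s) * b) = (5 * (8 * (s * s))) * b := by ring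
          _ ≤ n * n := Nat.mul_le_mul h7 h6
      have e2 : 5 * (8 * (s * s) * (a * (8 * k + 2))) ≤ n * n := by
        have h6 : a * CC ^ k ≤ n * n := by
          have := Nat.div_mul_le_self (n ^ 2) (CC ^ k)
          rw [← sq]
          exact this
        have h7 : 5 * (8 * (s * s) * (8 * k + 2)) ≤ CC ^ k := by
          have h8 : 8 * k + 2 ≤ 2 ^ (8 * k + 2) := Nat.lt_two_pow_self.le
          rw [hss, CC_pow]
          calc 5 * (8 * 2 ^ (32 * k + 22) * (8 * k + 2)) ≤
                2 ^ 3 * (2 ^ 3 * 2 ^ (32 * k + 22) * 2 ^ (8 * k + 2)) := by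
                apply Nat.mul_le_mul (by norm_num)
                apply Nat.mul_le_mul (by norm_num) h8
            _ = 2 ^ (3 + (3 + (32 * k + 22) + (8 * k + 2))) := by
                rw [← pow_add, ← pow_add, ← pow_add]
            _ ≤ _ := hpow _ _ (by omega)
        calc 5 * (8 * (s * s) * (a * (8 * k + 2))) = a * (5 * (8 * (s * s) * (8 * k + 2))) := by
              ring
          _ ≤ a * CC ^ k := Nat.mul_le_mul_left _ h7
          _ ≤ n * n := h6
      have e3 : 5 * (16 * (s * s) * (r * n)) ≤ n * n := by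
        have h7 : 5 * (16 * (s * s)) ≤ r := by
          refine le_trans ?_ h2
          rw [hss]
          calc 5 * (16 * 2 ^ (32 * k + 22)) ≤ 2 ^ 7 * 2 ^ (32 * k + 22) := by
                have : 0 < 2 ^ (32 * k + 22) := by positivity
                omega
            _ = 2 ^ (7 + (32 * k + 22)) := by rw [← pow_add]
            _ ≤ _ := hpow _ _ (by omega)
        calc 5 * (16 * (s * s) * (r * n)) = (5 * (16 * (s * s)) * r) * n := by ring
          _ ≤ (r * r) * n := by gcongr
          _ ≤ n * n := Nat.mul_le_mul_right _ hr2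
      have e4 : 5 * (12 * (s * s)) ≤ n * n := by
        have h7 : 5 * (12 * (s * s)) ≤ n := by
          refine le_trans ?_ h1
          rw [hss]
          calc 5 * (12 * 2 ^ (32 * k + 22)) ≤ 2 ^ 6 * 2 ^ (32 * k + 22) := by
                have : 0 < 2 ^ (32 * k + 22) := by positivity
                omega
            _ = 2 ^ (6 + (32 * k + 22)) := by rw [← pow_add]
            _ ≤ _ := hpow _ _ (by omega)
        nlinarith
      have e5 : 4 * (s * s) * (2 * (b + a * (8 * k + 2) + 2 * r * n + 1) + 1) =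
          8 * (s * s) * b + 8 * (s * s) * (a * (8 * k + 2)) + 16 * (s * s) * (r * n) +
            12 * (s * s) := by ring
      rw [e5]
      omega
    exact Nat.le_of_mul_le_mul_left h3 (by positivity)
  omega

/-- The lower bound. -/
theorem obp_lower (k n t w : ℕ) (hk : 1 ≤ k) (ht : t ≤ 2 ^ (n / CC ^ k))
    (P : Fin t → OBP (Var n) w) (hlen : ∀ i, (P i).layers.length ≤ k * (n * (n - 1)))
    (hP : ∀ z, (∃ i, (P i).Accepts z) ↔ IsIso z) : 2 ^ (n ^ 2 / CC ^ k) ≤ w := by
  classical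
  -- some program accepts something, so there is a state
  have hw : 1 ≤ w := by
    obtain ⟨i, p, _⟩ := (hP (zz (Equiv.refl _) (fun _ => false))).2 (isIso_zz _ _)
    have := p.2
    omega
  rcases Nat.lt_or_ge (n ^ 2) (CC ^ k) with hsmall | hn
  · rw [Nat.div_eq_of_lt hsmall]
    simpa using hw
  by_contra hcon
  push Not at hcon
  obtain ⟨h1, _⟩ := big_facts k n hn
  have hn2 : 2 ≤ n := by
    have : 2 ^ 1 ≤ 2 ^ (200 * k) := Nat.pow_le_pow_right (by norm_num) (by omega)
    omega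
  choose X Y R hX hY hR1 hR2 using fun i => obp_decomp (P i) k hk hn2 (hlen i)
  have hD : 1 ≤ 2 ^ (8 * k + 3) := Nat.one_le_two_pow
  have hfew := few_programs k n t hk hn ht
  have h3 := cover_bound (ι := Fin t)
    (T := Fin t × ((Fin (8 * k) → Fin w) × Fin w × Fin w)) (by omega) X Y (2 ^ (8 * k + 3)) hD
    hX hY (by rw [Fintype.card_fin]; exact hfew) (fun c => c.1) (fun c => R c.1 c.2)
    (fun c => hR2 c.1 c.2) (fun c z hz => (hP z).1 ⟨c.1, (hR1 c.1 z).2 ⟨c.2, hz⟩⟩) (by
      intro z hz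
      obtain ⟨i, hi⟩ := (hP z).2 hz
      obtain ⟨c, hc⟩ := (hR1 i z).1 hi
      exact ⟨(i, c), hc⟩)
  have h4 := many_states k n t w hk hn ht hcon.le
  have h5 : Fintype.card (Fin t × ((Fin (8 * k) → Fin w) × Fin w × Fin w)) =
      t * w ^ (8 * k + 2) := by
    simp only [Fintype.card_prod, Fintype.card_fin, Fintype.card_fun]
    ring
  rw [h5] at h3
  omega

/-- The layers comparing one pair of bits. -/
def cmp {n : ℕ} (π : Equiv.Perm (Fin n)) (e : Pr n) :
    List (Var n × (Bool → Fin 2 → Fin 2 → Prop)) :=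
  [(Sum.inl e, fun b p q => p = 0 ∧ q = if b then 1 else 0),
    (Sum.inr (act π e), fun b p q => (p = if b then 1 else 0) ∧ q = 0)]

theorem run_cmp {n : ℕ} (π : Equiv.Perm (Fin n)) (L : List (Pr n)) (z : Var n → Bool)
    (p q : Fin 2) (hp : p = 0) : Run (L.flatMap (cmp π)) z p q ↔
      (q = 0 ∧ ∀ e ∈ L, z (Sum.inr (act π e)) = z (Sum.inl e)) := by
  subst hp
  induction L with
  | nil => simp [Run, eq_comm]
  | cons e L ih =>
    rw [List.flatMap_cons, run_append]
    constructor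
    · rintro ⟨p', h1, h2⟩
      simp only [cmp, Run] at h1
      obtain ⟨p1, ⟨_, h3⟩, p2, ⟨h4, h5⟩, h6⟩ := h1
      subst h6 h5
      obtain ⟨h7, h8⟩ := ih.1 h2
      refine ⟨h7, ?_⟩
      intro e' he'
      rw [List.mem_cons] at he'
      rcases he' with rfl | he'
      · rw [h3] at h4
        cases hb1 : z (Sum.inl e') <;> cases hb2 : z (Sum.inr (act π e')) <;>
          simp [hb1, hb2] at h4 ⊢
      · exact h8 e' he'
    · rintro ⟨h1, h2⟩
      refine ⟨0, ?_, ih.2 ⟨h1, fun e' he' => h2 e' (List.mem_cons_of_mem _ he')⟩⟩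
      simp only [cmp, Run]
      refine ⟨_, ⟨trivial, rfl⟩, 0, ⟨?_, rfl⟩, rfl⟩
      rw [h2 e List.mem_cons_self]

/-- The program trying the permutation `π`. -/
noncomputable def tryPerm {n : ℕ} (π : Equiv.Perm (Fin n)) : OBP (Var n) 2 where
  layers := (univ : Finset (Pr n)).toList.flatMap (cmp π)
  start p := p = 0
  acc p := p = 0

theorem tryPerm_accepts {n : ℕ} (π : Equiv.Perm (Fin n)) (z : Var n → Bool) :
    (tryPerm π).Accepts z ↔ ∀ e, z (Sum.inr (act π e)) = z (Sum.inl e) := by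
  unfold OBP.Accepts
  constructor
  · rintro ⟨p, q, hp, hq, hr⟩ e
    exact ((run_cmp π _ z p q hp).1 hr).2 e (by simp)
  · intro h
    exact ⟨0, 0, rfl, rfl, (run_cmp π _ z 0 0 rfl).2 ⟨rfl, fun e _ => h e⟩⟩

theorem cmp_perm {n : ℕ} (π : Equiv.Perm (Fin n)) (L : List (Pr n)) :
    ((L.flatMap (cmp π)).map Prod.fst).Perm
      ((L.map Sum.inl) ++ L.map (fun e => (Sum.inr (act π e) : Var n))) := by
  induction L with
  | nil => simp
  | cons e L ih =>
    rw [List.flatMap_cons, List.map_append]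
    simp only [cmp, List.map_cons, List.map_nil, List.cons_append, List.nil_append]
    apply List.Perm.cons
    exact (List.Perm.cons _ ih).trans List.perm_middle.symm

/-- Every bit is read exactly once. -/
theorem tryPerm_once {n : ℕ} (π : Equiv.Perm (Fin n)) :
    ((tryPerm π).layers.map Prod.fst).Nodup ∧ ∀ v, v ∈ (tryPerm π).layers.map Prod.fst := by
  have h := cmp_perm π (univ : Finset (Pr n)).toList
  unfold tryPerm
  constructor
  · rw [h.nodup_iff, List.nodup_append]
    refine ⟨(nodup_toList _).map Sum.inl_injective,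
      (nodup_toList _).map (Sum.inr_injective.comp (act π).injective), ?_⟩
    intro a ha b hb
    simp only [List.mem_map] at ha hb
    obtain ⟨e, _, rfl⟩ := ha
    obtain ⟨e', _, rfl⟩ := hb
    simp
  · intro v
    rw [h.mem_iff, List.mem_append]
    rcases v with e | e
    · left
      simp
    · right
      simp only [List.mem_map, mem_toList, mem_univ, true_and]
      exact ⟨(act π).symm e, by simp⟩

end Pool.Agent.V7H65.MPC
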